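import Mathlib

/-!
The toroidal grid graph `C₃ □ C₅` (so `m + n = 8`) is 3-word-representable.
This refutes the conjecture that `C_m □ C_n` needs at least four copies of every letter
whenever `m, n ≥ 3` and `m + n ≥ 8`.
-/

namespace Pool.Agent.Results.MP_74a3a5_co.Torus35

/-- The list `l` has the form `x y x y ⋯` (any length). -/
def IsXYXY {V : Type} (l : List V) (x y : V) : Prop :=
  ∀ i : Fin l.length, l.get i = if i.val % 2 = 0 then x else y

/-- `x` and `y` alternate in `w`: deleting all other letters leaves `x y x y ⋯` or `y x y x ⋯`. -/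
def Alternate {V : Type} [DecidableEq V] (w : List V) (x y : V) : Prop :=
  IsXYXY (w.filter (fun z => z = x ∨ z = y)) x y ∨
    IsXYXY (w.filter (fun z => z = x ∨ z = y)) y x

/-- `G` is `k`-word-representable. -/
def KWordRep {V : Type} [DecidableEq V] (G : SimpleGraph V) (k : ℕ) : Prop :=
  ∃ w : List V, (∀ v, w.count v = k) ∧ ∀ x y, x ≠ y → (Alternate w x y ↔ G.Adj x y)

/-- The representing word. -/
def word : List (Fin 3 × Fin 5) :=
  [(0, 0), (2, 1), (1, 1), (2, 0), (0, 2), (0, 1), (2, 2), (2, 1), (1, 3), (1, 2), (0, 3), (0, 2),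
   (2, 3), (2, 2), (1, 4), (1, 3), (1, 0), (0, 4), (1, 1), (1, 2), (0, 0), (2, 4), (1, 4), (0, 1),
   (2, 0), (1, 0), (0, 3), (0, 4), (2, 3), (1, 3), (0, 2), (2, 1), (0, 3), (2, 2), (2, 4), (2, 3),
   (1, 4), (0, 0), (0, 4), (2, 0), (2, 4), (1, 1), (1, 0), (1, 2), (0, 1)]

theorem result :
    KWordRep (SimpleGraph.boxProd (SimpleGraph.cycleGraph 3) (SimpleGraph.cycleGraph 5)) 3 := by
  refine ⟨word, by decide +kernel, ?_⟩
  simp only [SimpleGraph.boxProd_adj, Alternate, IsXYXY]
  decide +kernel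

end Pool.Agent.Results.MP_74a3a5_co.Torus35
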